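import Pool.Agent.H343.AN.StAB

set_option autoImplicit false

/-! # AN-A1: union theorem for colourings -/

namespace Pool.Agent.H227.AN

open Pool.Agent.H343.AN Relation

theorem rtg_col {X : Type} [PseudoMetricSpace X] {B : Set X} {k : ℕ} {c : X → Fin k} {s : ℝ}
    {x y : X} (h : ReflTransGen (Stp B c s) x y) : c x = c y := by
  induction h with
  | refl => rfl
  | tail _ h ih => exact ih.trans h.2.2.1

theorem a1 : S_A1 := by
  classical
  intro X _ A B k s T DA DB hs hA hB hT
  obtain ⟨cA, hcA⟩ := hA
  obtain ⟨cB, hcB⟩ := hB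
  refine ⟨fun x => if x ∈ A then cA x else cB x, ?_⟩
  intro x y hxy
  have hDA : 0 ≤ DA := by simpa using hcA x x ReflTransGen.refl
  have hDB : 0 ≤ DB := by simpa using hcB x x ReflTransGen.refl
  have key : (x ∉ A ∧ y ∉ A ∧ ReflTransGen (Stp B cB s) x y) ∨
      (∃ a b, b ∈ A ∧ dist x a ≤ DB + s ∧ ReflTransGen (Stp A cA T) a b ∧
        (y = b ∨ ∃ z, dist b z ≤ s ∧ cA b = cB z ∧ y ∉ A ∧
          ReflTransGen (Stp B cB s) z y)) := by
    induction hxy with
    | refl =>
      by_cases hx : x ∈ A
      · right
        exact ⟨x, x, hx, by rw [dist_self]; linarith, ReflTransGen.refl, Or.inl rfl⟩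
      · left
        exact ⟨hx, hx, ReflTransGen.refl⟩
    | @tail y y' _ hst ih =>
      obtain ⟨hy, hy', hc, hd⟩ := hst
      simp only at hc
      rcases ih with ⟨hx, hyA, hr⟩ | ⟨a, b, hb, hxa, hab, hcase⟩
      · have hyB : y ∈ B := hy.resolve_left hyA
        rw [if_neg hyA] at hc
        by_cases h' : y' ∈ A
        · right
          refine ⟨y', y', h', ?_, ReflTransGen.refl, Or.inl rfl⟩
          have := hcB x y hr
          linarith [dist_triangle x y y']
        · left
          rw [if_neg h'] at hc
          exact ⟨hx, h', hr.tail ⟨hyB, hy'.resolve_left h', hc, hd⟩⟩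
      · right
        rcases hcase with rfl | ⟨z, hbz, hcz, hyA, hzy⟩
        · rw [if_pos hb] at hc
          by_cases h' : y' ∈ A
          · rw [if_pos h'] at hc
            exact ⟨a, y', h', hxa, hab.tail ⟨hb, h', hc, by linarith⟩, Or.inl rfl⟩
          · rw [if_neg h'] at hc
            exact ⟨a, y, hb, hxa, hab, Or.inr ⟨y', hd, hc, h', ReflTransGen.refl⟩⟩
        · have hyB : y ∈ B := hy.resolve_left hyA
          rw [if_neg hyA] at hc
          by_cases h' : y' ∈ A
          · rw [if_pos h'] at hc
            have hcc : cB z = cB y := rtg_col hzy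
            have hzyd := hcB z y hzy
            refine ⟨a, y', h', hxa, hab.tail ⟨hb, h', by rw [hcz, hcc, hc], ?_⟩, Or.inl rfl⟩
            have h1 := dist_triangle b z y'
            have h2 := dist_triangle z y y'
            linarith
          · rw [if_neg h'] at hc
            exact ⟨a, b, hb, hxa, hab, Or.inr ⟨z, hbz, hcz, h',
              hzy.tail ⟨hyB, hy'.resolve_left h', hc, hd⟩⟩⟩
  rcases key with ⟨_, _, hr⟩ | ⟨a, b, hb, hxa, hab, hcase⟩
  · have := hcB x y hr
    linarith
  · have h1 := hcA a b hab
    rcases hcase with rfl | ⟨z, hbz, _, _, hzy⟩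
    · linarith [dist_triangle x a y]
    · have h2 := hcB z y hzy
      linarith [dist_triangle x a y, dist_triangle a b y, dist_triangle b z y]

end Pool.Agent.H227.AN
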