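import Pool.Agent.H343.AN.StAB

set_option autoImplicit false

/-! # AN-A2: colouring by pieces -/

namespace Pool.Agent.H227.AN

open Pool.Agent.H343.AN Relation

theorem a2 : S_A2 := by
  classical
  intro X _ P k s D hk hD h
  let R : X → X → Prop := fun x y => x ∈ P ∧ y ∈ P ∧ dist x y ≤ s
  let rep : X → X := fun x => Quot.out (Quot.mk R x)
  have hrep : ∀ x, EqvGen R (rep x) x := fun x =>
    Quot.eqvGen_exact (Quot.out_eq (Quot.mk R x))
  -- membership in `P` is an invariant
  have hP : ∀ x y, EqvGen R x y → (x ∈ P ↔ y ∈ P) := by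
    intro x y hxy
    induction hxy with
    | rel x y h => exact ⟨fun _ => h.2.1, fun _ => h.1⟩
    | refl x => exact Iff.rfl
    | symm x y _ ih => exact ih.symm
    | trans x y z _ _ ih1 ih2 => exact ih1.trans ih2
  choose! U hU1 hU2 hU3 using h
  have hU : ∀ p ∈ P, ∀ x y, EqvGen R x y → (x ∈ U p ↔ y ∈ U p) := by
    intro p hp x y hxy
    induction hxy with
    | rel x y h =>
      exact ⟨fun hx => hU2 p hp x hx y h.2.1 h.2.2,
        fun hy => hU2 p hp y hy x h.1 (by rw [dist_comm]; exact h.2.2)⟩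
    | refl x => exact Iff.rfl
    | symm x y _ ih => exact ih.symm
    | trans x y z _ _ ih1 ih2 => exact ih1.trans ih2
  have hrP : ∀ x ∈ P, rep x ∈ P := fun x hx => (hP _ _ (hrep x)).2 hx
  have hxU : ∀ x ∈ P, x ∈ U (rep x) := fun x hx =>
    (hU _ (hrP x hx) _ _ (hrep x)).1 (hU1 _ (hrP x hx))
  let c0 : Fin k := ⟨0, hk⟩
  let col : X → X → Fin k := fun p =>
    if hp : p ∈ P then Classical.choose (hU3 p hp) else fun _ => c0
  have hcol : ∀ p ∈ P, ∀ x y, ReflTransGen (Stp (U p) (col p) s) x y → dist x y ≤ D := by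
    intro p hp
    have := Classical.choose_spec (hU3 p hp)
    simp only [col, dif_pos hp]
    exact this
  refine ⟨fun x => col (rep x) x, ?_⟩
  intro x y hxy
  have key : x = y ∨ (x ∈ P ∧ rep y = rep x ∧ ReflTransGen (Stp (U (rep x)) (col (rep x)) s) x y) := by
    induction hxy with
    | refl => exact Or.inl rfl
    | @tail y y' _ hst ih =>
      obtain ⟨hy, hy', hc, hd⟩ := hst
      simp only at hc
      have hrr : rep y' = rep y := by
        show Quot.out (Quot.mk R y') = Quot.out (Quot.mk R y)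
        have : Quot.mk R y = Quot.mk R y' := Quot.sound ⟨hy, hy', hd⟩
        rw [this]
      have hstep : Stp (U (rep y)) (col (rep y)) s y y' := by
        refine ⟨hxU y hy, ?_, ?_, hd⟩
        · rw [← hrr]; exact hxU y' hy'
        · rw [hc, hrr]
      rcases ih with rfl | ⟨hxP, hyx, hr⟩
      · exact Or.inr ⟨hy, hrr, ReflTransGen.single hstep⟩
      · right
        refine ⟨hxP, hrr.trans hyx, ?_⟩
        rw [hyx] at hstep
        exact hr.tail hstep
  rcases key with rfl | ⟨hxP, _, hr⟩
  · rw [dist_self]; exact hD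
  · exact hcol _ (hrP x hxP) x y hr

end Pool.Agent.H227.AN
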