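import Pool.Agent.H343.AN.StAB

set_option autoImplicit false

/-! # AN-B7: monotonicity of projections along geodesics -/

namespace Pool.Agent.H227.AN

open Pool.Agent.H343.AN Pool.Agent.TH68 Pool.Agent.Helper97.Hyp

theorem mono : S_near → S_mono := by
  intro hn Γ _ W 𝒜 _ Y A o v q₁ q₂ c hc h1 h2
  have hδ := Y.hδ
  have hθ := Y.hθ
  have h0 := pd_nonneg (Y.Sne A) o v
  rcases le_or_gt (pd (Y.S A) q₁ q₂) (3 * Y.θ) with h3 | h3
  · linarith
  obtain ⟨q₁', hq₁⟩ := Y.proj A q₁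
  obtain ⟨q₂', hq₂⟩ := Y.proj A q₂
  obtain ⟨h4, -, -⟩ := hn Y A hq₁ hq₂ h3
  have a1 := dist_triangle o q₂' v
  have a2 := dist_triangle o q₁' v
  have a3 := dist_triangle v q₂ q₂'
  have a4 := dist_triangle o q₁ q₁'
  have a5 := dist_triangle v q₁ q₁'
  have a6 := dist_triangle o q₂ q₂'
  have c1 := dist_comm v q₁'
  have c2 := dist_comm v q₂'
  have c3 := dist_comm v q₁
  have c4 := dist_comm v q₂
  have c5 := dist_comm q₂ q₁
  have e1 := le_pd (p := o) (q := v) hq₂.1 hq₁.1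
  have e2 := le_pd (p := o) (q := v) hq₁.1 hq₂.1
  rcases exc_split Y.hyp o v q₂ q₁ with h5 | h5
  · unfold exc at *
    linarith
  · unfold exc at *
    linarith

end Pool.Agent.H227.AN
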