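import Pool.Agent.H343.AN.StAB
import Pool.Graph.R_seed8.TH68.T7

set_option autoImplicit false

/-! # AN-B8: uniqueness of the entry point of a circle -/

namespace Pool.Agent.H227.AN

open Pool.Agent.H343.AN Pool.Agent.TH68 Pool.Agent.Helper97.Hyp

theorem entry : S_near → S_redpd → S_wind → S_order → S_entry := by
  intro _ hred hwind hord Γ _ W 𝒜 _ Y R hρ A o e e' m η hm hη hη' he he' hR hR'
  have hδ := Y.hδ
  have hθ := Y.hθ
  obtain ⟨g, hg, hd⟩ := R.cob A e he.1 e' he'.1
  have hgN : g ∈ R.N := R.G_le A hg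
  have hn : g * m ∈ R.N := R.N.mul_mem hgN hm
  have hno : (g * m) • o = g • (m • o) := mul_smul _ _ _
  have hp : IsProj Y.θ (Y.S A) ((g * m) • o) (g • e') := by
    rw [hno]; exact IsProj.fix Y (R.fix A g hg) he'
  have hRn : Redu R.N η ((g * m) • o) (g • e') := by
    intro n hn'
    have h1 := hR' (g⁻¹ * n * g) (by
      have := R.normal.conj_mem n hn' g⁻¹
      rwa [inv_inv] at this)
    rw [hno, dist_smul]
    have h2 : dist (g • (m • o)) (n • (g • e')) = dist (m • o) ((g⁻¹ * n * g) • e') := by
      rw [mul_smul, mul_smul, ← dist_smul g (m • o), smul_inv_smul]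
    rw [h2]
    exact h1
  have hle := le_pd_of_proj he hp
  have key : dist e (g • e') ≤ 30 * Y.θ := by
    by_cases h1 : g * m = 1
    · rw [h1, one_smul, pd_self (Y.Sne A)] at hle
      linarith
    · obtain ⟨C, r, hr, hr1, -, hw⟩ := hwind Y R hn h1 o
      have hCA : C ≠ A := by
        rintro rfl
        have := pd_le_of_proj he hp
        linarith
      have h2 := Y.small C A hCA e he.1 (g • e') hp.1
      have h3 := hred Y R hρ C hη hR
      have h4 := hred Y R hρ C hη hRn
      have t1 := pd_tri (Y.Sne C) o e ((g * m) • o)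
      have t2 := pd_tri (Y.Sne C) e (g • e') ((g * m) • o)
      have t3 := pd_symm (Y.Sne C) (g • e') ((g * m) • o)
      rcases lt_or_ge (pd (Y.S A) o ((g * m) • o)) (20 * Y.θ) with h5 | h5
      · linarith
      · exfalso
        rcases hord Y hCA.symm o ((g * m) • o) h5 (by linarith) with h6 | h6
        · obtain ⟨b, hb⟩ := Y.Sne C
          have := (h6 e he.1 b hb).1
          linarith
        · obtain ⟨b, hb⟩ := Y.Sne C
          have := (h6 (g • e') hp.1 b hb).2
          linarith
  refine ⟨⟨g, hg, key⟩, ?_, ?_⟩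
  · have h1 := hR (g * m)⁻¹ (R.N.inv_mem hn)
    have h2 : dist o ((g * m)⁻¹ • e) = dist ((g * m) • o) e := by
      rw [← dist_smul (g * m) o, smul_inv_smul]
    rw [h2] at h1
    have h3 := dist_triangle ((g * m) • o) (g • e') e
    rw [dist_comm (g • e') e] at h3
    have h4 : dist ((g * m) • o) (g • e') = dist (m • o) e' := by
      rw [hno, dist_smul]
    linarith
  · have h1 := hR' (m * g) (R.N.mul_mem hm hgN)
    rw [mul_smul, dist_smul] at h1
    have h3 := dist_triangle o e (g • e')
    linarith

end Pool.Agent.H227.AN
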