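import Pool.Agent.H343.AN.StAB
import Pool.Graph.R_seed8.TH68.T7

set_option autoImplicit false

/-! # AN-B9: arcs of a circle far from a given orbit are short -/

namespace Pool.Agent.H227.AN

open Pool.Agent.H343.AN Pool.Agent.TH68 Pool.Agent.Helper97.Hyp

private lemma arc_same {ρ θ κ P P' E : ℝ} (hρ : 10 ^ 6 * θ ≤ ρ) (hθ : 1 ≤ θ)
    (hκ' : κ ≤ ρ / 100)
    (h1 : ρ / 2 - κ - 2 * θ ≤ |E - P|) (h2 : |E - P| ≤ ρ / 2 + 3 * θ)
    (h3 : ρ / 2 - κ - 2 * θ ≤ |E - P'|) (h4 : |E - P'| ≤ ρ / 2 + 3 * θ)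
    (h5 : |P - P'| ≤ ρ / 2 + 2 * θ) : |P - P'| ≤ κ + 5 * θ := by
  obtain ⟨h5a, h5b⟩ := abs_le.1 h5
  obtain ⟨h2a, h2b⟩ := abs_le.1 h2
  obtain ⟨h4a, h4b⟩ := abs_le.1 h4
  rw [abs_le]
  rcases abs_cases (E - P) with ⟨h6, h7⟩ | ⟨h6, h7⟩ <;>
    rcases abs_cases (E - P') with ⟨h8, h9⟩ | ⟨h8, h9⟩ <;>
    rw [h6] at h1 <;> rw [h8] at h3 <;> constructor <;> linarith

private lemma arc_diff {ρ θ κ P P' E E' : ℝ} (hρ : 10 ^ 6 * θ ≤ ρ) (hθ : 1 ≤ θ)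
    (hκ : 0 ≤ κ) (hκ' : κ ≤ ρ / 100)
    (h1 : ρ / 2 - κ - 2 * θ ≤ |E - P|) (h2 : |E - P| ≤ ρ / 2 + 3 * θ)
    (h3 : ρ / 2 - κ - 2 * θ ≤ |E' - P'|) (h4 : |E' - P'| ≤ ρ / 2 + 3 * θ)
    (h5 : |P - P'| ≤ ρ / 2 + 2 * θ) (h6 : ρ - 2 * θ ≤ |E - E'|) (h7 : |E - E'| ≤ ρ + 3 * θ) :
    |P - P'| ≤ 2 * κ + 8 * θ := by
  obtain ⟨h5a, h5b⟩ := abs_le.1 h5
  obtain ⟨h2a, h2b⟩ := abs_le.1 h2
  obtain ⟨h4a, h4b⟩ := abs_le.1 h4
  obtain ⟨h7a, h7b⟩ := abs_le.1 h7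
  rw [abs_le]
  rcases abs_cases (E - P) with ⟨g1, g2⟩ | ⟨g1, g2⟩ <;>
    rcases abs_cases (E' - P') with ⟨g3, g4⟩ | ⟨g3, g4⟩ <;>
    rcases abs_cases (E - E') with ⟨g5, g6⟩ | ⟨g5, g6⟩ <;>
    rw [g1] at h1 <;> rw [g3] at h3 <;> rw [g5] at h6 <;> constructor <;> linarith

theorem arc : S_arc := by
  intro Γ _ W 𝒜 _ Y R hρ A e p p' κ he hp hp' hκ hκ' h1 h2 h3
  have hδ := Y.hδ
  have hθ := Y.hθ
  have hself : ∀ a ∈ Y.S A, IsProj Y.θ (Y.S A) a a := fun a ha =>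
    ⟨ha, fun s _ => by rw [dist_self]; linarith⟩
  have hc : ∀ a ∈ Y.S A, ∀ b ∈ Y.S A, |R.crd A a - R.crd A b| ≤ dist a b + Y.θ ∧
      dist a b ≤ |R.crd A a - R.crd A b| + 2 * Y.θ := by
    intro a ha b hb
    have g1 := abs_le.1 (R.crd_spec A a b)
    have g2 := pd_le_dist (Y.Sne A) a b
    have g3 := le_pd_of_proj (hself a ha) (hself b hb)
    constructor <;> linarith [g1.1, g1.2]
  have hmem : ∀ g ∈ R.G A, ∀ a ∈ Y.S A, g • a ∈ Y.S A := by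
    intro g hg a ha
    have := Y.smul_mem g A a ha
    rwa [R.fix A g hg] at this
  obtain ⟨g, hg, hd⟩ := R.cob A p hp e he
  obtain ⟨g', hg', hd'⟩ := R.cob A p' hp' e he
  have m := hmem g hg e he
  have m' := hmem g' hg' e he
  have a1 := hc _ m _ hp
  have a2 := hc _ m' _ hp'
  have a3 := hc _ hp _ hp'
  have b1 := h1 g hg
  have b2 := h2 g' hg'
  rw [dist_comm] at hd hd'
  by_cases hgg : g = g'
  · subst hgg
    have := arc_same (ρ := R.ρ) (θ := Y.θ) (κ := κ) (P := R.crd A p) (P' := R.crd A p')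
      (E := R.crd A (g • e)) hρ (by linarith) hκ' (by linarith) (by linarith)
      (by linarith) (by linarith) (by linarith)
    linarith
  · have hr : g' * g⁻¹ ∈ R.G A := (R.G A).mul_mem hg' ((R.G A).inv_mem hg)
    have hr1 : g' * g⁻¹ ≠ 1 := fun h => hgg (by
      rw [mul_inv_eq_one] at h; exact h.symm)
    have hrr : (g' * g⁻¹) • (g • e) = g' • e := by
      rw [mul_smul, inv_smul_smul]
    have c1 := R.far A _ hr hr1 _ m
    have c2 := R.gap A _ hr _ m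
    rw [hrr] at c1 c2
    have c3 := dist_triangle (g • e) p (g' • e)
    have c4 := dist_triangle p p' (g' • e)
    rw [dist_comm p' (g' • e)] at c4
    have c5 := c2 (by linarith)
    have c6 := hc _ m _ m'
    have := arc_diff (ρ := R.ρ) (θ := Y.θ) (κ := κ) (P := R.crd A p) (P' := R.crd A p')
      (E := R.crd A (g • e)) (E' := R.crd A (g' • e)) hρ (by linarith) hκ hκ' (by linarith)
      (by linarith) (by linarith) (by linarith) (by linarith) (by linarith) (by linarith)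
    linarith

end Pool.Agent.H227.AN
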