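import Pool.Agent.H343.AN.StF

set_option autoImplicit false

/-! # AN-F1: the rotations by `g ^ m` along the axes of a root `g` -/

namespace Pool.Agent.H227.AN

open Pool.Agent.H343.AN Pool.Agent.TH68 Pool.Agent.Helper97.Hyp

namespace F1

variable {Γ : Type} [Group Γ] {W : WNorm Γ} (D : RD Γ W)

/-- displacement of the powers of the root -/
noncomputable def dd (i : ℤ) : ℝ := dist D.o (D.g ^ i • D.o)

/-- the additivity defect -/
noncomputable def c₀ : ℝ := tl D.o (D.g ^ D.k) 1 + 4 * (D.k * dist D.o (D.g • D.o))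

lemma dd_nonneg (i : ℤ) : 0 ≤ dd D i := dist_nonneg

lemma dd_zero : dd D 0 = 0 := by simp [dd]

lemma dd_neg (i : ℤ) : dd D (-i) = dd D i := D.disp_neg i

lemma dd_natAbs (i : ℤ) : dd D (i.natAbs : ℤ) = dd D i := by
  rcases Int.natAbs_eq i with h | h
  · rw [← h]
  · rw [← dd_neg D i]; congr 1; omega

lemma dd_add (i j : ℤ) : dd D (i + j) ≤ dd D i + dd D j := by
  unfold dd
  have h := dist_triangle D.o (D.g ^ i • D.o) (D.g ^ i • D.g ^ j • D.o)
  rw [dist_smul] at h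
  rw [zpow_add, mul_smul]
  exact h

lemma c₀_nonneg : 0 ≤ c₀ D := by
  unfold c₀ tl; positivity

lemma dd_low {i : ℤ} (hi : 0 ≤ i) : ∃ s : ℕ, ∃ r : ℤ, 0 ≤ r ∧ r < D.k ∧ i = D.k * s + r ∧
    |dd D i - tl D.o (D.g ^ D.k) s| ≤ D.k * dist D.o (D.g • D.o) := by
  have hk := D.hk
  have h1 : (D.k : ℤ) * (i / D.k) + i % D.k = i := Int.mul_ediv_add_emod i D.k
  have h2 : 0 ≤ i % (D.k : ℤ) := Int.emod_nonneg _ (by omega)
  have h3 : i % (D.k : ℤ) < D.k := Int.emod_lt_of_pos _ (by omega)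
  have h4 : 0 ≤ i / (D.k : ℤ) := Int.ediv_nonneg hi (by omega)
  obtain ⟨s, hs⟩ := Int.eq_ofNat_of_zero_le h4
  rw [hs] at h1
  refine ⟨s, i % D.k, h2, h3, h1.symm, ?_⟩
  set r := i % (D.k : ℤ) with hr
  have h5 : dd D (D.k * s) = tl D.o (D.g ^ D.k) s := by
    unfold dd tl
    rw [zpow_mul, zpow_natCast, zpow_natCast]
  have h6 : dd D r ≤ D.k * dist D.o (D.g • D.o) := by
    have h7 := D.dist_zpow_le r
    have h8 : (r.natAbs : ℝ) ≤ D.k := by
      have : r.natAbs ≤ D.k := by omega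
      exact_mod_cast this
    exact h7.trans (mul_le_mul_of_nonneg_right h8 dist_nonneg)
  have h7 := dd_add D (D.k * s) r
  have h8 := dd_add D i (-r)
  rw [h1] at h7
  rw [dd_neg, show i + -r = (D.k : ℤ) * s by omega] at h8
  rw [h5] at h7 h8
  rw [abs_le]
  constructor <;> linarith

lemma dd_sup {i j : ℤ} (hi : 0 ≤ i) (hj : 0 ≤ j) : dd D i + dd D j ≤ dd D (i + j) + c₀ D := by
  obtain ⟨s, r, hr, hrk, his, h1⟩ := dd_low D hi
  obtain ⟨s', r', hr', hrk', hjs, h2⟩ := dd_low D hj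
  have h3 := D.lox.tl_add s s'
  have h5 : dd D (D.k * (s + s' : ℕ)) = tl D.o (D.g ^ D.k) (s + s') := by
    unfold dd tl
    rw [zpow_mul, zpow_natCast, zpow_natCast]
  have hk0 : (0 : ℝ) ≤ D.k * dist D.o (D.g • D.o) := by positivity
  have hdr : ∀ r : ℤ, 0 ≤ r → r < D.k → dd D r ≤ D.k * dist D.o (D.g • D.o) := by
    intro r hr hrk
    have h7 := D.dist_zpow_le r
    have h8 : (r.natAbs : ℝ) ≤ D.k := by
      have : r.natAbs ≤ D.k := by omega
      exact_mod_cast this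
    exact h7.trans (mul_le_mul_of_nonneg_right h8 dist_nonneg)
  have h6 := dd_add D (i + j) (-(r + r'))
  have h7 : i + j + -(r + r') = D.k * (s + s' : ℕ) := by
    push_cast
    rw [his, hjs]; ring
  rw [h7, dd_neg, h5] at h6
  have h8 := dd_add D r r'
  have h9 := hdr r hr hrk
  have h10 := hdr r' hr' hrk'
  have h11 := abs_le.1 h1
  have h12 := abs_le.1 h2
  unfold c₀
  linarith [h11.2, h12.2]

/-- the coordinate of a point of the axis -/
noncomputable def sg (i : ℤ) : ℝ := if 0 ≤ i then dd D i else -dd D i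

lemma sg_sub {i j : ℤ} (hij : j ≤ i) : |sg D i - sg D j - dd D (i - j)| ≤ c₀ D := by
  have hc := c₀_nonneg D
  unfold sg
  rw [abs_le]
  by_cases hi : 0 ≤ i
  · by_cases hj : 0 ≤ j
    · rw [if_pos hi, if_pos hj]
      have h1 := dd_sup D hj (sub_nonneg.2 hij)
      have h2 := dd_add D j (i - j)
      rw [show j + (i - j) = i by omega] at h1 h2
      constructor <;> linarith
    · rw [if_pos hi, if_neg hj]
      have h1 := dd_sup D hi (show 0 ≤ -j by omega)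
      have h2 := dd_add D i (-j)
      rw [dd_neg, show i + -j = i - j by omega] at h1 h2
      constructor <;> linarith
  · have hj : ¬ 0 ≤ j := by omega
    rw [if_neg hi, if_neg hj]
    have h1 := dd_sup D (show 0 ≤ -i by omega) (sub_nonneg.2 hij)
    have h2 := dd_add D (-i) (i - j)
    rw [show -i + (i - j) = -j by omega, dd_neg, dd_neg] at h1 h2
    constructor <;> linarith

lemma sg_spec (i j : ℤ) : |(|sg D i - sg D j|) - dd D (i - j)| ≤ c₀ D := by
  rcases le_total j i with h | h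
  · have h1 := sg_sub D h
    have h2 := abs_abs_sub_abs_le (sg D i - sg D j) (dd D (i - j))
    rw [abs_of_nonneg (dd_nonneg D (i - j))] at h2
    exact h2.trans h1
  · have h1 := sg_sub D h
    have h2 := abs_abs_sub_abs_le (sg D j - sg D i) (dd D (j - i))
    rw [abs_of_nonneg (dd_nonneg D (j - i))] at h2
    rw [abs_sub_comm (sg D i), ← dd_neg D (i - j), neg_sub]
    exact h2.trans h1

variable (h2 : ∀ x : Γ, orderOf x ≠ 2)

include h2 in
lemma ax_pt {A : Γ ⧸ D.E} {x : Pt W} (hx : x ∈ Lox.ax D.o (D.g ^ D.k) A) :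
    ∃ i : ℤ, (A.out * D.g ^ i) • D.o = x := by
  obtain ⟨f, hf, rfl⟩ := D.mem_ax hx
  rcases D.mem_E hf with ⟨i, hi⟩ | ⟨h, -⟩
  · exact ⟨i, by rw [← hi]⟩
  · exact absurd h (h2 f)

lemma ax_dist (A : Γ ⧸ D.E) (i j : ℤ) :
    dist ((A.out * D.g ^ i) • D.o) ((A.out * D.g ^ j) • D.o) = dd D (i - j) := by
  rw [mul_smul, mul_smul, dist_smul, ← dd_neg, neg_sub]
  unfold dd
  rw [← dist_smul (D.g ^ i) D.o, smul_smul, ← zpow_add]
  congr 3
  ring

/-- the new constant -/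
noncomputable def θ₁ : ℝ := D.θ + 10 * c₀ D

lemma θ_le : D.θ ≤ θ₁ D := by
  have := c₀_nonneg D
  unfold θ₁; linarith

/-- the system -/
noncomputable def Y : Sys Γ W (Γ ⧸ D.E) where
  δ := D.sys.δ
  θ := θ₁ D
  hyp := D.sys.hyp
  hδ := D.sys.hδ
  hθ := D.sys.hθ.trans (θ_le D)
  S := D.sys.S
  Sne := D.sys.Sne
  smul_mem := D.sys.smul_mem
  proj A x := by
    obtain ⟨q, hq⟩ := D.sys.proj A x
    refine ⟨q, hq.1, fun s hs => ?_⟩
    have h1 := hq.2 s hs
    have h2 : D.sys.θ ≤ θ₁ D := θ_le D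
    linarith
  small A B hAB p hp q hq := (D.sys.small A B hAB p hp q hq).trans (θ_le D)

include h2 in
lemma exists_ix (A : Γ ⧸ D.E) (w : Pt W) : ∃ i : ℤ,
    IsProj D.sys.θ (D.sys.S A) w ((A.out * D.g ^ i) • D.o) := by
  obtain ⟨q, hq⟩ := D.sys.proj A w
  obtain ⟨i, rfl⟩ := ax_pt D h2 hq.1
  exact ⟨i, hq⟩

variable {m : ℕ}

lemma rot_eq {A : Γ ⧸ D.E} {r : Γ} (hr : r ∈ D.rot m A) :
    ∃ t : ℤ, r = A.out * D.g ^ ((m : ℤ) * t) * A.out⁻¹ := by
  obtain ⟨t, rfl⟩ := hr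
  refine ⟨t, ?_⟩
  simp only
  rw [conj_zpow, ← zpow_mul]

lemma dd_mul_ge (m : ℕ) {t : ℤ} (ht : t ≠ 0) : dd D m ≤ dd D (m * t) + c₀ D := by
  rw [← dd_natAbs D (m * t), Int.natAbs_mul, Int.natAbs_natCast]
  have h3 : 0 < t.natAbs := by omega
  obtain ⟨n, hn⟩ : ∃ n, t.natAbs = n + 1 := ⟨t.natAbs - 1, by omega⟩
  have h4 := dd_sup D (i := m) (j := (m : ℤ) * n) (by omega) (by positivity)
  have h5 : ((m * t.natAbs : ℕ) : ℤ) = m + m * n := by
    rw [hn]; push_cast; ring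
  rw [h5]
  linarith [dd_nonneg D ((m : ℤ) * n)]

lemma dd_mul_ge2 (m : ℕ) {t : ℤ} (ht : 2 ≤ t.natAbs) :
    2 * dd D m ≤ dd D (m * t) + 2 * c₀ D := by
  rw [← dd_natAbs D (m * t), Int.natAbs_mul, Int.natAbs_natCast]
  obtain ⟨n, hn⟩ : ∃ n, t.natAbs = n + 2 := ⟨t.natAbs - 2, by omega⟩
  have h4 := dd_sup D (i := m) (j := (m : ℤ) * n) (by omega) (by positivity)
  have h5 := dd_sup D (i := m) (j := (m : ℤ) + m * n) (by omega) (by positivity)
  have h6 : ((m * t.natAbs : ℕ) : ℤ) = m + (m + m * n) := by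
    rw [hn]; push_cast; ring
  rw [h6]
  linarith [dd_nonneg D ((m : ℤ) * n)]

lemma exists_round (m : ℕ) (hm : 0 < m) (a : ℤ) : ∃ s : ℤ, 2 * ((m : ℤ) * s + a).natAbs ≤ m := by
  have h1 : (m : ℤ) * (a / m) + a % m = a := Int.mul_ediv_add_emod a m
  have h2 : 0 ≤ a % (m : ℤ) := Int.emod_nonneg _ (by omega)
  have h3 : a % (m : ℤ) < m := Int.emod_lt_of_pos _ (by omega)
  by_cases h4 : 2 * (a % (m : ℤ)) ≤ m
  · refine ⟨-(a / m), ?_⟩
    have : (m : ℤ) * (-(a / m)) + a = a % m := by linarith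
    rw [this]; omega
  · refine ⟨-(a / m) - 1, ?_⟩
    have : (m : ℤ) * (-(a / m) - 1) + a = a % m - m := by linarith
    rw [this]; omega

/-- the rotations -/
noncomputable def circ (hm : 0 < m) (hM : 101 * D.θ ≤ D.low m) (hρ : c₀ D < dd D m) :
    Circ (Y D) where
  ρ := dd D m - c₀ D
  N := D.nk m
  normal := D.nk_normal
  G := D.rot m
  G_le := D.rot_le
  fix A r hr := D.rot_fix A hr
  conj γ A r hr := D.rot_conj γ A hr
  far A r hr hr1 q hq := by
    obtain ⟨t, rfl⟩ := rot_eq D hr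
    rw [D.disp_ax hq]
    have ht : t ≠ 0 := by
      rintro rfl
      exact hr1 (by simp)
    have := dd_mul_ge D m ht
    change _ ≤ dd D (m * t)
    linarith
  gap A r hr q hq hd := by
    obtain ⟨t, rfl⟩ := rot_eq D hr
    rw [D.disp_ax hq] at hd ⊢
    change dd D (m * t) ≤ _ at hd
    change dd D (m * t) ≤ dd D m - c₀ D + θ₁ D
    have hc := c₀_nonneg D
    have hθ : 1 ≤ D.θ := D.sys.hδ.trans D.sys.hθ
    have hθ' : θ₁ D = D.θ + 10 * c₀ D := rfl
    by_cases h0 : t = 0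
    · rw [h0, mul_zero, dd_zero]
      linarith
    by_cases h1 : t.natAbs = 1
    · rw [← dd_natAbs D (m * t), Int.natAbs_mul, h1, Int.natAbs_natCast, mul_one]
      linarith
    · have := dd_mul_ge2 D m (t := t) (by omega)
      linarith
  cob A p hp q hq := by
    obtain ⟨i, rfl⟩ := ax_pt D h2 hp
    obtain ⟨j, rfl⟩ := ax_pt D h2 hq
    obtain ⟨s, hs⟩ := exists_round m hm (j - i)
    refine ⟨(A.out * D.g ^ (m : ℤ) * A.out⁻¹) ^ s, Subgroup.zpow_mem _
      (Subgroup.mem_zpowers _) _, ?_⟩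
    have h4 : (A.out * D.g ^ (m : ℤ) * A.out⁻¹) ^ s • (A.out * D.g ^ j) • D.o =
        (A.out * D.g ^ ((m : ℤ) * s + j)) • D.o := by
      rw [conj_zpow, ← zpow_mul, smul_smul, zpow_add]
      congr 1
      group
    rw [h4, ax_dist]
    set u : ℕ := ((m : ℤ) * s + (j - i)).natAbs with hu
    have h5 : dd D (i - ((m : ℤ) * s + j)) = dd D u := by
      rw [hu, dd_natAbs, ← dd_neg]; congr 1; ring
    rw [h5]
    have h6 := dd_sup D (i := u) (j := u) (by omega) (by omega)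
    have h7 := dd_sup D (i := (u : ℤ) + u) (j := (m : ℤ) - (u + u)) (by omega) (by omega)
    rw [show (u : ℤ) + u + ((m : ℤ) - (u + u)) = m by omega] at h7
    have h8 := dd_nonneg D ((m : ℤ) - (u + u))
    have hθ : 1 ≤ D.θ := D.sys.hδ.trans D.sys.hθ
    have hc := c₀_nonneg D
    change _ ≤ (dd D m - c₀ D) / 2 + (D.θ + 10 * c₀ D)
    linarith
  wind n hn hn1 x := by
    obtain ⟨A, r, hr, hr1, h⟩ := (D.spin hM).swind x hn hn1
    refine ⟨A, r, hr, hr1, ?_⟩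
    have h1 : pd (Lox.ax D.o (D.g ^ D.k) A) (r • x) (n • x) ≤ 42 * D.θ := h
    have hθ := θ_le D
    have hθ0 : 1 ≤ D.θ := D.sys.hδ.trans D.sys.hθ
    change pd (Lox.ax D.o (D.g ^ D.k) A) (r • x) (n • x) ≤ 50 * θ₁ D
    linarith
  crd A w := sg D (exists_ix D h2 A w).choose
  crd_spec A w w' := by
    have hw := (exists_ix D h2 A w).choose_spec
    have hw' := (exists_ix D h2 A w').choose_spec
    set i := (exists_ix D h2 A w).choose
    set j := (exists_ix D h2 A w').choose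
    have g1 := le_pd_of_proj hw hw'
    have g2 := pd_le_of_proj hw hw'
    rw [ax_dist] at g1 g2
    have g3 := abs_le.1 (sg_spec D i j)
    have hc := c₀_nonneg D
    have e1 : D.sys.θ = D.θ := rfl
    change |pd (D.sys.S A) w w' - (|sg D i - sg D j|)| ≤ D.θ + 10 * c₀ D
    rw [e1] at g1 g2
    rw [abs_le]
    constructor <;> linarith [g3.1, g3.2]

end F1

theorem f1 : S_f1 := by
  intro Γ _ W D h2
  refine ⟨F1.Y D, fun ρ₀ => ?_⟩
  obtain ⟨m₀, hm₀⟩ := D.low_tendsto (101 * D.θ + |ρ₀| + F1.c₀ D + 1)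
  refine ⟨m₀ + 1, fun m hm => ?_⟩
  have h1 := hm₀ m (by omega)
  have h3 : D.low m ≤ F1.dd D m := D.low_le (t := (m : ℤ)) (by omega)
  have hc := F1.c₀_nonneg D
  have hθ : 1 ≤ D.θ := D.sys.hδ.trans D.sys.hθ
  have hρ := le_abs_self ρ₀
  have hρ' := abs_nonneg ρ₀
  refine ⟨F1.circ D h2 (by omega) (by linarith) (by linarith), rfl, ?_⟩
  change ρ₀ ≤ F1.dd D m - F1.c₀ D
  linarith

end Pool.Agent.H227.AN
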